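import Pool.Agent.Lib.MP_cbfcf7.D0
import Pool.Agent.Lib.MP_cbfcf7.O0
import Pool.Agent.Lib.MP_cbfcf7.R0

/-!
# The Milnor-Wood inequality for area preserving actions of surface groups on the plane

Let `ρ` be an action of the fundamental group of the closed oriented surface of genus `g ≥ 1`
on the plane by orientation preserving homeomorphisms preserving the Lebesgue measure. Then the
Euler number of `ρ` is well defined and has absolute value at most `2 g - 2`.
-/

namespace Pool.Agent.Results.MP_cbfcf7_gt.MilnorWood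

open MWC MeasureTheory

theorem result (g : ℕ) (hg : 1 ≤ g) (ρ : SurfaceGroup g →* (ℂ ≃ₜ ℂ))
    (hop : ∀ γ, OrientationPreserving (ρ γ))
    (hvol : ∀ γ, MeasurePreserving (ρ γ) volume volume) :
    ∃ e : ℤ, IsEulerNumber ρ e ∧ (∀ e' : ℤ, IsEulerNumber ρ e' → e' = e) ∧
      |e| ≤ 2 * (g : ℤ) - 2 :=
  milnor_wood g hg ρ hop hvol

end Pool.Agent.Results.MP_cbfcf7_gt.MilnorWood
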